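import Pool.Agent.W307.RS.Stm

/-!
# RS-MQ2: the rank over a multiquadratic field
-/

set_option autoImplicit false

namespace Pool.Agent.W410.RS

open Pool.Agent.W307.RS Pool.Agent.W307.RT

open Classical in
/-- the rank -/
noncomputable def rk {K : Type} [Field K] (A B : K) : Cardinal :=
  Module.rank ℤ (ShK A B).toAffine.Point

theorem rk_eq {K : Type} [Field K] [inst : DecidableEq K] (A B : K) :
    rk A B = Module.rank ℤ (ShK A B).toAffine.Point := by
  have h : inst = fun a b => Classical.propDecidable (a = b) := Subsingleton.elim _ _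
  subst h
  rfl

theorem rk_le_of_hom {K L : Type} [Field K] [Field L] [Algebra K L] (f : L →ₐ[K] K) (A B : K) :
    rk (algebraMap K L A) (algebraMap K L B) ≤ rk A B := by
  classical
  have e1 : (ShK A B).map (algebraMap K L) = ShK (algebraMap K L A) (algebraMap K L B) := by
    unfold ShK
    ext <;> simp [WeierstrassCurve.map]
  have e2 : (ShK A B).map (algebraMap K K) = ShK A B := WeierstrassCurve.map_id _
  have hi := WeierstrassCurve.Affine.Point.map_injective (W' := (ShK A B).toAffine) (S := K)
    (F := L) (K := K) f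
  have h := LinearMap.rank_le_of_injective (AddMonoidHom.toIntLinearMap
    (WeierstrassCurve.Affine.Point.map (W' := (ShK A B).toAffine) (S := K) (F := L) (K := K) f)) hi
  rw [rk_eq, rk_eq, ← e1]
  conv_rhs => rw [← e2]
  exact h

theorem gen (h : MQ1) {J : Type} (S : Finset J) :
    ∀ (K L : Type) [Field K] [Field L] [CharZero K] [Algebra K L] (x : J → L) (d : J → K),
    (∀ i ∈ S, x i ^ 2 = algebraMap K L (d i)) → (∀ i ∈ S, d i ≠ 0) →
    IntermediateField.adjoin K (x '' (S : Set J)) = ⊤ →
    ∀ A B : K, 4 * A ^ 3 + 27 * B ^ 2 ≠ 0 →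
    rk (algebraMap K L A) (algebraMap K L B) ≤
      ∑ T ∈ S.powerset, rk ((∏ i ∈ T, d i) ^ 2 * A) ((∏ i ∈ T, d i) ^ 3 * B) := by
  classical
  induction S using Finset.induction_on with
  | empty =>
    intro K L _ _ _ _ x d _ _ htop A B _
    rw [Finset.coe_empty, Set.image_empty, IntermediateField.adjoin_empty] at htop
    have h1 := rk_le_of_hom (K := K) (L := L)
      ((IntermediateField.botEquiv K L).toAlgHom.comp
        ((IntermediateField.equivOfEq htop.symm).toAlgHom.comp
          (IntermediateField.topEquiv (F := K) (E := L)).symm.toAlgHom)) A B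
    rw [Finset.powerset_empty, Finset.sum_singleton, Finset.prod_empty, one_pow, one_pow, one_mul,
      one_mul]
    exact h1
  | insert a S' ha ih =>
    intro K L _ _ _ _ x d hx hd htop A B hAB
    set K' := IntermediateField.adjoin K (x '' (S' : Set J)) with hK'
    have : CharZero K' := charZero_of_injective_algebraMap (algebraMap K K').injective
    -- the top
    have ht1 : IntermediateField.adjoin K' {x a} = ⊤ := by
      have h1 := IntermediateField.adjoin_adjoin_left K (x '' (S' : Set J)) {x a}
      have h2 : x '' (S' : Set J) ∪ {x a} = x '' ((insert a S' : Finset J) : Set J) := by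
        rw [Finset.coe_insert, Set.image_insert_eq, Set.union_comm, Set.singleton_union]
      rw [h2, htop] at h1
      apply IntermediateField.restrictScalars_injective K
      rw [IntermediateField.restrictScalars_top]
      exact h1
    have hsub : ∀ i ∈ S', x i ∈ K' := fun i hi =>
      IntermediateField.subset_adjoin K _ (Set.mem_image_of_mem x hi)
    let x' : J → K' := fun i => if hi : i ∈ S' then ⟨x i, hsub i hi⟩ else 0
    have hx' : ∀ i ∈ S', ((x' i : K') : L) = x i := by
      intro i hi
      simp only [x', dif_pos hi]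
    have ht2 : IntermediateField.adjoin K (x' '' (S' : Set J)) = ⊤ := by
      have him : (Subtype.val '' (x' '' (S' : Set J)) : Set L) = x '' (S' : Set J) := by
        rw [← Set.image_comp]
        exact Set.image_congr fun i hi => hx' i hi
      apply IntermediateField.lift_injective K'
      rw [IntermediateField.lift_top, IntermediateField.lift_adjoin, him]
    have hsq : ∀ i ∈ S', x' i ^ 2 = algebraMap K K' (d i) := by
      intro i hi
      apply Subtype.ext
      rw [IntermediateField.coe_pow, hx' i hi, hx i (Finset.mem_insert_of_mem hi)]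
      rfl
    have hd' : ∀ i ∈ S', d i ≠ 0 := fun i hi => hd i (Finset.mem_insert_of_mem hi)
    have hda : d a ≠ 0 := hd a (Finset.mem_insert_self a S')
    have ih1 := ih K K' x' d hsq hd' ht2 A B hAB
    have hAB2 : 4 * (d a ^ 2 * A) ^ 3 + 27 * (d a ^ 3 * B) ^ 2 ≠ 0 := by
      have e : 4 * (d a ^ 2 * A) ^ 3 + 27 * (d a ^ 3 * B) ^ 2 =
        d a ^ 6 * (4 * A ^ 3 + 27 * B ^ 2) := by ring
      rw [e]
      exact mul_ne_zero (pow_ne_zero 6 hda) hAB
    have ih2 := ih K K' x' d hsq hd' ht2 (d a ^ 2 * A) (d a ^ 3 * B) hAB2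
    have hAB' : 4 * (algebraMap K K' A) ^ 3 + 27 * (algebraMap K K' B) ^ 2 ≠ 0 := by
      have e : 4 * (algebraMap K K' A) ^ 3 + 27 * (algebraMap K K' B) ^ 2 =
          algebraMap K K' (4 * A ^ 3 + 27 * B ^ 2) := by
        simp only [map_add, map_mul, map_pow, map_ofNat]
      rw [e]
      exact fun h0 => hAB ((map_eq_zero _).mp h0)
    have h3 := h K' L (x a) (algebraMap K K' (d a))
      (by rw [hx a (Finset.mem_insert_self a S')]; rfl) ht1
      (algebraMap K K' A) (algebraMap K K' B) hAB'
    have h4 : rk (algebraMap K L A) (algebraMap K L B) ≤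
        rk (algebraMap K K' A) (algebraMap K K' B) +
        rk (algebraMap K K' (d a ^ 2 * A)) (algebraMap K K' (d a ^ 3 * B)) := by
      rw [map_mul, map_mul, map_pow, map_pow]
      exact h3
    refine h4.trans ?_
    rw [Finset.sum_powerset_insert ha]
    refine add_le_add ih1 (ih2.trans (le_of_eq ?_))
    refine Finset.sum_congr rfl fun T hT => ?_
    have haT : a ∉ T := fun hh => ha (Finset.mem_powerset.mp hT hh)
    rw [Finset.prod_insert haT]
    congr 1 <;> ring

theorem mq2_of (h : Pool.Agent.W307.RS.MQ1) : Pool.Agent.W307.RS.MQ2 := by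
  intro F _ _ _ r x d hx hd htop A B hAB
  classical
  have h1 := gen h (Finset.univ : Finset (Fin r)) ℚ F x (fun i => (d i : ℚ))
    (fun i _ => by rw [hx i, map_intCast]) (fun i _ => by exact_mod_cast hd i)
    (by rw [Finset.coe_univ, Set.image_univ]; exact htop) (A : ℚ) (B : ℚ)
    (by exact_mod_cast hAB)
  rw [map_intCast, map_intCast, Finset.powerset_univ] at h1
  have h2 : ∀ T : Finset (Fin r), rk ((∏ i ∈ T, (d i : ℚ)) ^ 2 * (A : ℚ))
      ((∏ i ∈ T, (d i : ℚ)) ^ 3 * (B : ℚ)) =
      Module.rank ℤ (Sh ((∏ i ∈ T, d i) ^ 2 * A) ((∏ i ∈ T, d i) ^ 3 * B)).toAffine.Point := by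
    intro T
    rw [rk_eq]
    have e : ShK ((∏ i ∈ T, (d i : ℚ)) ^ 2 * (A : ℚ)) ((∏ i ∈ T, (d i : ℚ)) ^ 3 * (B : ℚ)) =
        Sh ((∏ i ∈ T, d i) ^ 2 * A) ((∏ i ∈ T, d i) ^ 3 * B) := by
      unfold ShK Sh
      push_cast
      rfl
    rw [e]
  rw [Finset.sum_congr rfl fun T _ => h2 T] at h1
  exact h1

end Pool.Agent.W410.RS
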